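import Pool.Agent.Helper71.UT.SegEx

/-!
# HH/ExA: paths through vertices of degree two, degrees and segments (for HH/Exist)
-/

set_option autoImplicit false

open Set
open Pool.Agent.Helper83.OP Pool.Agent.Helper95.UP Pool.Agent.Helper71.UT

namespace Pool.Agent.Helper85.HH

variable {V : Type} {G : SimpleGraph V}

/-- inner vertices of a path have degree at least two -/
theorem two_le_inner [Finite V] {a b : V} {p : G.Walk a b} (hp : p.IsPath) {i : ℕ} (h0 : 0 < i)
    (hi : i < p.length) : 2 ≤ deg G (p.getVert i) := by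
  have h1 : G.Adj (p.getVert i) (p.getVert (i + 1)) := p.adj_getVert_succ hi
  have h2 : G.Adj (p.getVert (i - 1)) (p.getVert (i - 1 + 1)) := p.adj_getVert_succ (by omega)
  rw [Nat.sub_add_cancel h0] at h2
  have hne : p.getVert (i - 1) ≠ p.getVert (i + 1) := by
    intro h
    have := hp.getVert_injOn (by simp; omega) (by simp; omega) h
    omega
  have hsub : ({p.getVert (i - 1), p.getVert (i + 1)} : Set V) ⊆ G.neighborSet (p.getVert i) := by
    intro z hz
    rcases hz with rfl | rfl
    · exact h2.symm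
    · exact h1
  rw [← Set.ncard_pair hne]
  exact Set.ncard_le_ncard hsub (Set.toFinite _)

/-- **T2**: walks between different vertices of degree at least three are long -/
theorem thr_ge [Finite V] {r : ℕ}
    (hlow : ∀ u v (p : G.Walk u v), p.IsPath → u ≠ v → 3 ≤ deg G u → 3 ≤ deg G v →
      (∀ x ∈ p.support, x ≠ u → x ≠ v → deg G x = 2) → r ≤ p.length)
    {u v : V} (W : G.Walk u v) (huv : u ≠ v) (hu : 3 ≤ deg G u) (hv : 3 ≤ deg G v) :
    r ≤ W.length := by
  classical
  have hb : W.bypass.IsPath := W.bypass_isPath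
  have hbl : W.bypass.length ≤ W.length := W.length_bypass_le_length
  generalize W.bypass = P at hb hbl
  refine le_trans ?_ hbl
  have hpos : 0 < P.length := by
    rcases Nat.eq_zero_or_pos P.length with h | h
    · exact absurd (SimpleGraph.Walk.eq_of_length_eq_zero h) huv
    · exact h
  have hex : ∃ i, 0 < i ∧ i ≤ P.length ∧ 3 ≤ deg G (P.getVert i) :=
    ⟨P.length, hpos, le_rfl, by rw [SimpleGraph.Walk.getVert_length]; exact hv⟩
  obtain ⟨i, ⟨hi0, hil, hi3⟩, hmin⟩ : ∃ i, (0 < i ∧ i ≤ P.length ∧ 3 ≤ deg G (P.getVert i)) ∧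
      ∀ j, 0 < j → j < i → ¬ 3 ≤ deg G (P.getVert j) := by
    refine ⟨Nat.find hex, Nat.find_spec hex, ?_⟩
    intro j hj0 hj h3
    have h1 := (Nat.find_spec hex).2.1
    exact Nat.find_min hex hj ⟨hj0, by omega, h3⟩
  have hlen : (P.take i).length = i := by
    rw [SimpleGraph.Walk.take_length]
    exact min_eq_left hil
  have hne : u ≠ P.getVert i := by
    intro h
    have := hb.getVert_injOn (x₁ := 0) (x₂ := i) (by simp) (by simpa using hil)
      (by rw [SimpleGraph.Walk.getVert_zero]; exact h)
    omega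
  have h1 := hlow u (P.getVert i) (P.take i) (hb.take i) hne hu hi3 (by
    intro x hx hxu hxv
    obtain ⟨j, hj, hjl⟩ := SimpleGraph.Walk.mem_support_iff_exists_getVert.mp hx
    rw [hlen] at hjl
    have hgv : (P.take i).getVert j = P.getVert j := by
      rw [SimpleGraph.Walk.take_getVert]
      congr 1
      exact min_eq_right hjl
    rw [hgv] at hj
    have hj0 : 0 < j := by
      rcases Nat.eq_zero_or_pos j with rfl | h
      · rw [SimpleGraph.Walk.getVert_zero] at hj
        exact absurd hj.symm hxu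
      · exact h
    have hji : j < i := by
      rcases hjl.lt_or_eq with h | rfl
      · exact h
      · exact absurd hj.symm hxv
    have h2 := two_le_inner hb hj0 (by omega : j < P.length)
    have h3 := hmin j hj0 hji
    rw [← hj]
    omega)
  rw [hlen] at h1
  omega

/-- a vertex of degree two has a neighbour different from a given one -/
theorem other_nbr {z w : V} (hd : deg G z = 2) : ∃ a, G.Adj z a ∧ a ≠ w := by
  obtain ⟨w1, w2, hne, h1, h2, -⟩ := two_nbrs hd
  by_cases h : w1 = w
  · exact ⟨w2, h2, fun h' => hne (h.trans h'.symm)⟩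
  · exact ⟨w1, h1, h⟩

/-- **T1**: a path all of whose vertices have degree two can be extended at both ends -/
theorem thr_le [Finite V] {L : ℕ}
    (hup : ∀ u v (p : G.Walk u v), p.IsPath →
      (∀ x ∈ p.support, x ≠ u → x ≠ v → deg G x = 2) → p.length ≤ L)
    (hcyc : ∀ (x : V) (C : G.Walk x x), C.IsCycle →
      ∃ u ∈ C.support, ∃ v ∈ C.support, u ≠ v ∧ 3 ≤ deg G u ∧ 3 ≤ deg G v)
    {u v : V} (W : G.Walk u v) (hW : W.IsPath) (h2 : ∀ z ∈ W.support, deg G z = 2) :
    W.length + 2 ≤ L := by
  classical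
  have hdu := h2 u W.start_mem_support
  have hdv := h2 v W.end_mem_support
  -- the two extensions
  obtain ⟨a, b, ha, hb, hae, hbe, hab0⟩ : ∃ a b, G.Adj a u ∧ G.Adj v b ∧ s(a, u) ∉ W.edges ∧
      s(v, b) ∉ W.edges ∧ (W.length = 0 → a ≠ b) := by
    by_cases hn : W.length = 0
    · have huv := SimpleGraph.Walk.eq_of_length_eq_zero hn
      subst huv
      obtain ⟨w1, w2, hne, h1, h2, -⟩ := two_nbrs hdu
      have hed : W.edges = [] := by
        rw [← List.length_eq_zero_iff, SimpleGraph.Walk.length_edges]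
        exact hn
      exact ⟨w1, w2, h1.symm, h2, by rw [hed]; simp, by rw [hed]; simp, fun _ => hne⟩
    · obtain ⟨a, ha, hane⟩ := other_nbr (w := W.snd) hdu
      obtain ⟨b, hb, hbne⟩ := other_nbr (w := W.penultimate) hdv
      have e1 : s(a, u) ∉ W.edges := by
        intro h
        rw [Sym2.eq_swap] at h
        exact hane (hW.eq_snd_of_mem_edges h)
      have e2 : s(v, b) ∉ W.edges := fun h => hbne (hW.eq_penultimate_of_mem_edges h)
      exact ⟨a, b, ha.symm, hb, e1, e2, fun h => absurd h hn⟩
  -- the new vertices are not on the path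
  have key : ∀ {u' v' a' : V} (W' : G.Walk u' v') (h' : G.Adj a' u'), W'.IsPath →
      (∀ z ∈ W'.support, deg G z = 2) → s(a', u') ∉ W'.edges → a' ∉ W'.support := by
    intro u' v' a' W' h' hp' hd' he' hmem
    have hcy : (SimpleGraph.Walk.cons h' (W'.takeUntil a' hmem)).IsCycle := by
      rw [SimpleGraph.Walk.cons_isCycle_iff]
      exact ⟨hp'.takeUntil hmem, fun h => he' (W'.edges_takeUntil_subset_edges hmem h)⟩
    obtain ⟨x, hx, -, -, -, hx3, -⟩ := hcyc _ _ hcy
    rw [SimpleGraph.Walk.support_cons, List.mem_cons] at hx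
    have hxW : x ∈ W'.support := by
      rcases hx with rfl | hx
      · exact hmem
      · exact W'.support_takeUntil_subset_support hmem hx
    have := hd' x hxW
    omega
  have haW : a ∉ W.support := key W ha hW h2 hae
  have hbW : b ∉ W.support := by
    have h1 := key W.reverse hb.symm hW.reverse (fun z hz => h2 z (by
      rw [SimpleGraph.Walk.support_reverse, List.mem_reverse] at hz; exact hz)) (by
      rw [SimpleGraph.Walk.edges_reverse, List.mem_reverse, Sym2.eq_swap]; exact hbe)
    rw [SimpleGraph.Walk.support_reverse, List.mem_reverse] at h1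
    exact h1
  have hWb : (W.concat hb).IsPath := hW.concat hbW hb
  have hsup : ∀ x, x ∈ (W.concat hb).support ↔ x ∈ W.support ∨ x = b := by
    intro x
    rw [SimpleGraph.Walk.support_concat, List.mem_append, List.mem_singleton]
  have hab : a ≠ b := by
    rcases Nat.eq_zero_or_pos W.length with hn | hn
    · exact hab0 hn
    · intro hab
      subst hab
      have huv : u ≠ v := by
        intro h
        have := hW.getVert_injOn (x₁ := 0) (x₂ := W.length) (by simp) (by simp)
          (by rw [SimpleGraph.Walk.getVert_zero, SimpleGraph.Walk.getVert_length]; exact h)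
        omega
      have hcy : (SimpleGraph.Walk.cons ha (W.concat hb)).IsCycle := by
        rw [SimpleGraph.Walk.cons_isCycle_iff]
        refine ⟨hWb, fun h => ?_⟩
        rw [SimpleGraph.Walk.edges_concat, List.concat_eq_append, List.mem_append,
          List.mem_singleton] at h
        rcases h with h | h
        · exact hae h
        · rcases Sym2.eq_iff.1 h with ⟨e1, -⟩ | ⟨-, e2⟩
          · exact haW (e1 ▸ W.end_mem_support)
          · exact huv e2
      obtain ⟨x, hx, y, hy, hxy, hx3, hy3⟩ := hcyc _ _ hcy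
      have hall : ∀ x ∈ (SimpleGraph.Walk.cons ha (W.concat hb)).support, 3 ≤ deg G x → x = a := by
        intro x hx h3
        rw [SimpleGraph.Walk.support_cons, List.mem_cons, hsup] at hx
        rcases hx with h | h | h
        · exact h
        · have := h2 x h
          omega
        · exact h
      exact hxy ((hall x hx hx3).trans (hall y hy hy3).symm)
  have hP : (SimpleGraph.Walk.cons ha (W.concat hb)).IsPath := by
    rw [SimpleGraph.Walk.cons_isPath_iff]
    refine ⟨hWb, fun h => ?_⟩
    rcases (hsup a).1 h with h | h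
    · exact haW h
    · exact hab h
  have h3 := hup _ _ _ hP (by
    intro x hx hxa hxb
    rw [SimpleGraph.Walk.support_cons, List.mem_cons, hsup] at hx
    rcases hx with h | h | h
    · exact absurd h hxa
    · exact h2 x h
    · exact absurd h hxb)
  rw [SimpleGraph.Walk.length_cons, SimpleGraph.Walk.length_concat] at h3
  omega

/-- the edges of the segments in `A` -/
def sub {Q : Type} (Sg : Seg G Q) (A : Set Q) : SimpleGraph V where
  Adj u v := ∃ q ∈ A, s(u, v) ∈ (Sg.T q).edges
  symm := ⟨by
    rintro u v ⟨q, hq, h⟩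
    exact ⟨q, hq, by rwa [Sym2.eq_swap]⟩⟩
  loopless := ⟨by
    rintro u ⟨q, hq, h⟩
    exact G.irrefl ((Sg.T q).adj_of_mem_edges h)⟩

theorem sub_le {Q : Type} (Sg : Seg G Q) (A : Set Q) : sub Sg A ≤ G := by
  rintro u v ⟨q, -, h⟩
  exact (Sg.T q).adj_of_mem_edges h

/-- **T3**: the degree at a mark in a union of segments -/
theorem deg_sub [Finite V] {Q : Type} [Finite Q] {M : Set V} (C : Cut G M Q) (A : Set Q) {v : V}
    (hv : v ∈ M) :
    deg (sub C.sg A) v = {q | q ∈ A ∧ C.sg.a q = v}.ncard + {q | q ∈ A ∧ C.sg.b q = v}.ncard := by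
  classical
  have hnil : ∀ q, ¬ (C.sg.T q).Nil := fun q => SimpleGraph.Walk.not_nil_of_ne (C.sg.ne q)
  have e1 : ∀ q v, C.sg.a q = v → s(v, (C.sg.T q).snd) ∈ (C.sg.T q).edges := by
    rintro q v rfl
    exact (C.sg.T q).mk_start_snd_mem_edges (hnil q)
  have e2 : ∀ q v, C.sg.b q = v → s(v, (C.sg.T q).penultimate) ∈ (C.sg.T q).edges := by
    rintro q v rfl
    rw [Sym2.eq_swap]
    exact (C.sg.T q).mk_penultimate_end_mem_edges (hnil q)
  have hN : (sub C.sg A).neighborSet v =
      (fun q => (C.sg.T q).snd) '' {q | q ∈ A ∧ C.sg.a q = v} ∪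
      (fun q => (C.sg.T q).penultimate) '' {q | q ∈ A ∧ C.sg.b q = v} := by
    ext w
    constructor
    · rintro ⟨q, hq, h⟩
      have hvs := (C.sg.T q).fst_mem_support_of_mem_edges h
      by_cases ha : v = C.sg.a q
      · left
        refine ⟨q, ⟨hq, ha.symm⟩, ?_⟩
        rw [ha] at h
        exact ((C.sg.path q).eq_snd_of_mem_edges h).symm
      · by_cases hb : v = C.sg.b q
        · right
          refine ⟨q, ⟨hq, hb.symm⟩, ?_⟩
          rw [hb] at h
          exact ((C.sg.path q).eq_penultimate_of_mem_edges h).symm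
        · exact absurd hv (C.nm q v hvs ha hb)
    · rintro (⟨q, ⟨hq, h⟩, rfl⟩ | ⟨q, ⟨hq, h⟩, rfl⟩)
      · exact ⟨q, hq, e1 q v h⟩
      · exact ⟨q, hq, e2 q v h⟩
  unfold deg
  rw [hN, Set.ncard_union_eq _ (Set.toFinite _) (Set.toFinite _), Set.InjOn.ncard_image,
    Set.InjOn.ncard_image]
  · rintro q ⟨-, hq⟩ q' ⟨-, hq'⟩ h
    have h' : (C.sg.T q).penultimate = (C.sg.T q').penultimate := h
    have h1 := e2 q v hq
    have h2 := e2 q' v hq'
    generalize (C.sg.T q').penultimate = y at h' h2
    subst h'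
    exact C.sg.disj _ _ _ h1 h2
  · rintro q ⟨-, hq⟩ q' ⟨-, hq'⟩ h
    have h' : (C.sg.T q).snd = (C.sg.T q').snd := h
    have h1 := e1 q v hq
    have h2 := e1 q' v hq'
    generalize (C.sg.T q').snd = y at h' h2
    subst h'
    exact C.sg.disj _ _ _ h1 h2
  · rw [Set.disjoint_left]
    rintro w ⟨q, ⟨-, hq⟩, rfl⟩ ⟨q', ⟨-, hq'⟩, h⟩
    have h' : (C.sg.T q').penultimate = (C.sg.T q).snd := h
    have h1 := e1 q v hq
    have h2 := e2 q' v hq'
    generalize (C.sg.T q').penultimate = y at h' h2
    subst h'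
    have h3 := C.sg.disj _ _ _ h1 h2
    subst h3
    exact C.sg.ne q (hq.trans hq'.symm)

theorem sub_univ {Q : Type} (Sg : Seg G Q) : sub Sg Set.univ = G := by
  ext u v
  constructor
  · rintro ⟨q, -, h⟩
    exact (Sg.T q).adj_of_mem_edges h
  · intro h
    obtain ⟨q, hq⟩ := Sg.cover s(u, v) h
    exact ⟨q, trivial, hq⟩

/-- the degree at a mark -/
theorem deg_mark [Finite V] {Q : Type} [Finite Q] {M : Set V} (C : Cut G M Q) {v : V}
    (hv : v ∈ M) : deg G v = {q | C.sg.a q = v}.ncard + {q | C.sg.b q = v}.ncard := by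
  have h := deg_sub C Set.univ hv
  rw [sub_univ] at h
  simpa using h

/-- the degree at an inner vertex of a segment in a union of segments -/
theorem deg_inner [Finite V] {Q : Type} (Sg : Seg G Q) (A : Set Q) {q : Q} {v : V}
    (hv : v ∈ (Sg.T q).support) (ha : v ≠ Sg.a q) (hb : v ≠ Sg.b q) :
    (q ∈ A → deg (sub Sg A) v = 2) ∧ (q ∉ A → deg (sub Sg A) v = 0) := by
  have hd := Sg.inner q v hv ha hb
  have hed : ∀ w, G.Adj v w → s(v, w) ∈ (Sg.T q).edges :=
    fun w hw => edge_inner (Sg.path q) hv ha hb hd hw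
  constructor
  · intro hq
    have : (sub Sg A).neighborSet v = G.neighborSet v := by
      ext w
      constructor
      · intro h
        exact sub_le Sg A h
      · intro h
        exact ⟨q, hq, hed w h⟩
    unfold deg
    rw [this]
    exact hd
  · intro hq
    have : (sub Sg A).neighborSet v = ∅ := by
      rw [Set.eq_empty_iff_forall_notMem]
      rintro w ⟨q', hq', h⟩
      have h1 := hed w ((Sg.T q').adj_of_mem_edges h)
      exact hq (Sg.disj _ _ _ h1 h ▸ hq')
    unfold deg
    rw [this, Set.ncard_empty]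

end Pool.Agent.Helper85.HH
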