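import Pool.Agent.Helper93.HH.FB
import Pool.Agent.Helper51.HH.Emission
import Pool.Agent.Helper66.HH.Exits

/-!
# HH: dropped sources, existence of the flows, total mass
-/

open Set
open Pool.Agent.Helper83.OP
open Pool.Agent.Helper43.HH
open Pool.Agent.Helper93.HH Pool.Agent.Helper93.HH.HD

namespace Pool.Agent.Helper85.HH

set_option linter.unusedSectionVars false

variable {V P Q : Type} [Fintype V] [Fintype P] [Finite Q] {D : HD V P Q} {K : ℕ}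
  {S : Sys D K} {e0 : Sym2 V} {D0 M : ℕ} {Φ : Fl S e0 D0 M}

/-- from `drop_count` and `exit_uniq` -/
theorem dropped_sum (Φ : Fl S e0 D0 M) (hD : D.Ok) (hKh : 1 ≤ D.Kh) (hK : 10 ≤ K) :
    open Classical in
    ∑ s : P × V × V, (if Drop S s.2.1 s.2.2 then Φ.ms s else 0) ≤ 2 * S.Z.ncard := by
  classical
  obtain ⟨T, hT⟩ : ∃ T : Finset (P × V × V), ∀ s, s ∈ T ↔
      Drop S s.2.1 s.2.2 ∧ Φ.m s.1 s.2.1 s.2.2 ≠ 0 :=
    ⟨Finset.univ.filter fun s => Drop S s.2.1 s.2.2 ∧ Φ.m s.1 s.2.1 s.2.2 ≠ 0, fun s => by simp⟩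
  have hfac : ∀ s ∈ T, s.1 ∉ S.Bd ∧ Exit S (D.x s.1) s.2.1 s.2.2 ∧ S.E.ctr s.2.2 ∈ S.Z := by
    intro s hs
    obtain ⟨h1, h2⟩ := (hT s).1 hs
    obtain ⟨⟨k1, _⟩, k2, _⟩ := Φ.mAl _ _ _ h2
    exact ⟨k1.1, k2, h1.1⟩
  have h1 : ∑ s : P × V × V, (if Drop S s.2.1 s.2.2 then Φ.ms s else 0) ≤ ∑ s ∈ T, (1 : ℝ) := by
    rw [← Finset.sum_subset (Finset.subset_univ T)]
    · refine Finset.sum_le_sum fun s hs => ?_
      rw [if_pos ((hT s).1 hs).1]
      exact Φ.ms_le_one hD hKh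
    · intro s _ hs
      by_cases hd : Drop S s.2.1 s.2.2
      · rw [if_pos hd]
        have : Φ.m s.1 s.2.1 s.2.2 = 0 := by
          by_contra h
          exact hs ((hT s).2 ⟨hd, h⟩)
        unfold Fl.ms
        rw [this, mul_zero]
      · rw [if_neg hd]
  refine h1.trans ?_
  rw [Finset.sum_const, nsmul_eq_mul, mul_one]
  have h2 : T.card ≤ 2 * (T.image fun s => S.E.ctr s.2.2).card := by
    refine Finset.card_le_mul_card_image _ _ ?_
    intro z hz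
    obtain ⟨s0, hs0, rfl⟩ := Finset.mem_image.1 hz
    refine le_trans ?_ (Pool.Agent.Helper66.HH.drop_count hD S hK _ (hfac s0 hs0).2.2)
    rw [← Set.ncard_coe_finset]
    refine Set.ncard_le_ncard_of_injOn (fun s : P × V × V => s.1) ?_ ?_ (Set.toFinite _)
    · intro s hs
      obtain ⟨hsT, hsz⟩ := Finset.mem_filter.1 (Finset.mem_coe.1 hs)
      obtain ⟨k1, k2, _⟩ := hfac s hsT
      exact ⟨k1, s.2.1, s.2.2, k2, hsz, ((hT s).1 hsT).1⟩
    · intro s hs s' hs' h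
      obtain ⟨hsT, hsz⟩ := Finset.mem_filter.1 (Finset.mem_coe.1 hs)
      obtain ⟨hsT', hsz'⟩ := Finset.mem_filter.1 (Finset.mem_coe.1 hs')
      have k := (hfac s hsT).2.1
      have k' := (hfac s' hsT').2.1
      have h' : s.1 = s'.1 := h
      rw [← h'] at k'
      obtain ⟨e1, e2⟩ := Pool.Agent.Helper66.HH.exit_uniq hD S hK k k' (hsz.trans hsz'.symm)
      exact Prod.ext h' (Prod.ext e1 e2)
  have h3 : (T.image fun s => S.E.ctr s.2.2).card ≤ S.Z.ncard := by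
    rw [← Set.ncard_coe_finset]
    refine Set.ncard_le_ncard ?_ (Set.toFinite _)
    intro z hz
    obtain ⟨s, hs, rfl⟩ := Finset.mem_image.1 (Finset.mem_coe.1 hz)
    exact (hfac s hs).2.2
  have h4 : T.card ≤ 2 * S.Z.ncard := h2.trans (Nat.mul_le_mul_left _ h3)
  exact_mod_cast h4

/-- from `emission` for the pins with `Iso S D0 M p` and `e0 ∉ (D.w p).edges`, zero for the others -/
theorem exists_fl (hD : D.Ok) (S : Sys D K) (hK : 10 ≤ K) (e0 : Sym2 V) (D0 M : ℕ) :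
    Nonempty (Fl S e0 D0 M) := by
  classical
  have h : ∀ p : P, ∃ (F : V → ℝ) (m : V → V → ℝ), (∀ v, 0 ≤ F v) ∧
      (∀ v, F v ≤ 8 / 2 ^ (S.E.dep v / D.L)) ∧ (∀ u w, 0 ≤ m u w) ∧
      (∀ u w, m u w ≠ 0 → (Iso S D0 M p ∧ e0 ∉ (D.w p).edges) ∧ Al S p u w) ∧
      (Iso S D0 M p → e0 ∉ (D.w p).edges → ∑ u, ∑ w, m u w = 1) ∧ (∑ u, ∑ w, m u w ≤ 1) ∧
      ∀ v, S.E.ctr v = D.x p →
        ∑ u, ∑ w, (if Anc S.E.par S.E.dep v u then m u w else 0) ≤ F v := by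
    intro p
    by_cases hp : Iso S D0 M p ∧ e0 ∉ (D.w p).edges
    · obtain ⟨F, m, h1, h2, h3, h4, h5, h6⟩ := Pool.Agent.Helper51.HH.emission hD S hK p hp.1.1
        (lt_of_le_of_lt (Nat.zero_le _) hp.1.2.1)
      exact ⟨F, m, h1, h2, h3, fun u w h => ⟨hp, h4 u w h⟩, fun _ _ => h5, h5.le,
        fun v hv => by convert h6 v hv⟩
    · refine ⟨fun _ => 0, fun _ _ => 0, fun _ => le_rfl, fun v => by positivity,
        fun _ _ => le_rfl, fun u w h => absurd rfl h, fun h h' => absurd ⟨h, h'⟩ hp, by simp, ?_⟩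
      intro v _
      simp
  choose F m h1 h2 h3 h4 h5 h6 h7 using h
  exact ⟨{ F := F, m := m, F0 := h1, Fd := h2, m0 := h3, mAl := h4, m1 := h5, m1' := h6,
           mF := fun p v hv => by convert h7 p v hv }⟩

theorem total_sum (Φ : Fl S e0 D0 M) :
    open Classical in
    ∑ p : P, (if (p ∉ S.Bd ∧ e0 ∉ (D.w p).edges) ∧ D0 * D.L < D.sg (D.x p) ∧
        deg D.G (D.hub p) ≤ M * (D.sg (D.x p) + D.L)
      then (D.r : ℝ) / deg D.G (D.hub p) else 0) ≤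
    ∑ s ∈ Φ.Sr, Φ.ms s + ∑ s : P × V × V, (if Drop S s.2.1 s.2.2 then Φ.ms s else 0) := by
  classical
  have h1 : ∑ p : P, (if (p ∉ S.Bd ∧ e0 ∉ (D.w p).edges) ∧ D0 * D.L < D.sg (D.x p) ∧
        deg D.G (D.hub p) ≤ M * (D.sg (D.x p) + D.L)
      then (D.r : ℝ) / deg D.G (D.hub p) else 0) ≤ ∑ s : P × V × V, Φ.ms s := by
    rw [Fintype.sum_prod_type]
    refine Finset.sum_le_sum fun p _ => ?_
    split_ifs with hp
    · obtain ⟨⟨k1, k2⟩, k3, k4⟩ := hp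
      have h5 := Φ.m1 p ⟨k1, k3, k4⟩ k2
      rw [Fintype.sum_prod_type]
      unfold Fl.ms
      simp only
      have h6 : ∑ u, ∑ w, (D.r : ℝ) / deg D.G (D.hub p) * Φ.m p u w =
          (D.r : ℝ) / deg D.G (D.hub p) * ∑ u, ∑ w, Φ.m p u w := by
        rw [Finset.mul_sum]
        refine Finset.sum_congr rfl fun u _ => ?_
        rw [Finset.mul_sum]
      rw [h6, h5, mul_one]
    · exact Finset.sum_nonneg fun y _ => Φ.ms0 _
  refine h1.trans ?_
  have h2 : ∑ s ∈ Φ.Sr, Φ.ms s = ∑ s : P × V × V, (if s ∈ Φ.Sr then Φ.ms s else 0) := by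
    rw [Finset.sum_ite_mem, Finset.univ_inter]
  rw [h2, ← Finset.sum_add_distrib]
  refine Finset.sum_le_sum fun s _ => ?_
  have h0 := Φ.ms0 s
  by_cases hs : s ∈ Φ.Sr
  · rw [if_pos hs]
    split_ifs <;> linarith
  · rw [if_neg hs]
    by_cases hd : Drop S s.2.1 s.2.2
    · rw [if_pos hd]
      linarith
    · rw [if_neg hd]
      have : Φ.m s.1 s.2.1 s.2.2 = 0 := by
        by_contra h
        exact hs ((Φ.mem_Sr s).2 ⟨h, hd⟩)
      unfold Fl.ms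
      rw [this, mul_zero]
      linarith

end Pool.Agent.Helper85.HH
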