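import Pool.Agent.Helper85.HH.ExA

/-!
# HH/ExB: degrees, pins and threads between hubs (for HH/Exist)
-/

set_option autoImplicit false

open Set
open Pool.Agent.Helper83.OP Pool.Agent.Helper95.UP Pool.Agent.Helper71.UT

namespace Pool.Agent.Helper85.HH

set_option linter.unusedSectionVars false

variable {V : Type} {G : SimpleGraph V} [Finite V] {Q : Type} [Finite Q] {M : Set V}

/-- `seg p` is the segment of the pin `p`, `x p` its end outside `U`, `hub p` its end in `U` -/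
structure PinSeg (C : Cut G M Q) (U : Set V) {P : Type} (seg : P → Q) (x hub : P → V) : Prop where
  inj : Function.Injective seg
  ends : ∀ p, (x p = C.sg.a (seg p) ∧ hub p = C.sg.b (seg p)) ∨
    (x p = C.sg.b (seg p) ∧ hub p = C.sg.a (seg p))
  x_U : ∀ p, x p ∉ U
  hub_U : ∀ p, hub p ∈ U
  surj : ∀ q, (C.sg.a q ∉ U ∧ C.sg.b q ∈ U) ∨ (C.sg.a q ∈ U ∧ C.sg.b q ∉ U) → ∃ p, seg p = q

/-- the pins at `v` -/
theorem card_x {C : Cut G M Q} {U : Set V} {P : Type} {seg : P → Q} {x hub : P → V}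
    (hP : PinSeg C U seg x hub) {v : V} (hv : v ∉ U) :
    {p | x p = v}.ncard = {q | C.sg.a q = v ∧ C.sg.b q ∈ U}.ncard +
      {q | C.sg.b q = v ∧ C.sg.a q ∈ U}.ncard := by
  have h1 : seg '' {p | x p = v} = {q | C.sg.a q = v ∧ C.sg.b q ∈ U} ∪
      {q | C.sg.b q = v ∧ C.sg.a q ∈ U} := by
    ext q
    constructor
    · rintro ⟨p, rfl, rfl⟩
      rcases hP.ends p with ⟨e1, e2⟩ | ⟨e1, e2⟩
      · exact Or.inl ⟨e1.symm, e2 ▸ hP.hub_U p⟩
      · exact Or.inr ⟨e1.symm, e2 ▸ hP.hub_U p⟩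
    · rintro (⟨e1, e2⟩ | ⟨e1, e2⟩)
      · obtain ⟨p, rfl⟩ := hP.surj q (Or.inl ⟨e1 ▸ hv, e2⟩)
        refine ⟨p, ?_, rfl⟩
        rcases hP.ends p with ⟨e3, -⟩ | ⟨e3, -⟩
        · exact e3.trans e1
        · exact absurd (e3 ▸ e2) (hP.x_U p)
      · obtain ⟨p, rfl⟩ := hP.surj q (Or.inr ⟨e2, e1 ▸ hv⟩)
        refine ⟨p, ?_, rfl⟩
        rcases hP.ends p with ⟨e3, -⟩ | ⟨e3, -⟩
        · exact absurd (e3 ▸ e2) (hP.x_U p)
        · exact e3.trans e1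
  rw [← Set.ncard_image_of_injective _ hP.inj, h1,
    Set.ncard_union_eq _ (Set.toFinite _) (Set.toFinite _)]
  rw [Set.disjoint_left]
  rintro q ⟨e1, -⟩ ⟨-, e2⟩
  exact hv (e1 ▸ e2)

/-- the pins of the hub `a` -/
theorem card_hub {C : Cut G M Q} {U : Set V} {P : Type} {seg : P → Q} {x hub : P → V}
    (hP : PinSeg C U seg x hub) {a : V} (ha : a ∈ U) :
    {p | hub p = a}.ncard = {q | C.sg.a q = a ∧ C.sg.b q ∉ U}.ncard +
      {q | C.sg.b q = a ∧ C.sg.a q ∉ U}.ncard := by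
  have h1 : seg '' {p | hub p = a} = {q | C.sg.a q = a ∧ C.sg.b q ∉ U} ∪
      {q | C.sg.b q = a ∧ C.sg.a q ∉ U} := by
    ext q
    constructor
    · rintro ⟨p, rfl, rfl⟩
      rcases hP.ends p with ⟨e1, e2⟩ | ⟨e1, e2⟩
      · exact Or.inr ⟨e2.symm, e1 ▸ hP.x_U p⟩
      · exact Or.inl ⟨e2.symm, e1 ▸ hP.x_U p⟩
    · rintro (⟨e1, e2⟩ | ⟨e1, e2⟩)
      · obtain ⟨p, rfl⟩ := hP.surj q (Or.inr ⟨e1 ▸ ha, e2⟩)
        refine ⟨p, ?_, rfl⟩
        rcases hP.ends p with ⟨-, e3⟩ | ⟨-, e3⟩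
        · exact absurd (hP.hub_U p) (e3 ▸ e2)
        · exact e3.trans e1
      · obtain ⟨p, rfl⟩ := hP.surj q (Or.inl ⟨e2, e1 ▸ ha⟩)
        refine ⟨p, ?_, rfl⟩
        rcases hP.ends p with ⟨-, e3⟩ | ⟨-, e3⟩
        · exact e3.trans e1
        · exact absurd (hP.hub_U p) (e3 ▸ e2)
  rw [← Set.ncard_image_of_injective _ hP.inj, h1,
    Set.ncard_union_eq _ (Set.toFinite _) (Set.toFinite _)]
  rw [Set.disjoint_left]
  rintro q ⟨e1, -⟩ ⟨-, e2⟩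
  exact e2 (e1 ▸ ha)

theorem ncard_split {S : Type} [Finite S] (p r : S → Prop) :
    {q | p q}.ncard = {q | p q ∧ r q}.ncard + {q | p q ∧ ¬ r q}.ncard := by
  classical
  rw [← Set.ncard_union_eq _ (Set.toFinite _) (Set.toFinite _)]
  · congr 1
    ext q
    constructor
    · intro h
      by_cases hr : r q
      · exact Or.inl ⟨h, hr⟩
      · exact Or.inr ⟨h, hr⟩
    · rintro (h | h) <;> exact h.1
  · rw [Set.disjoint_left]
    rintro q ⟨-, h⟩ ⟨-, h'⟩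
    exact h' h

/-- the degree of a mark outside `U`: edges of `N` and pins -/
theorem dg_mark (C : Cut G M Q) (U : Set V) {P : Type} {seg : P → Q} {x hub : P → V}
    (hP : PinSeg C U seg x hub) {v : V} (hv : v ∈ M) (hvU : v ∉ U) :
    deg G v = deg (sub C.sg {q | C.sg.a q ∉ U ∧ C.sg.b q ∉ U}) v + {p | x p = v}.ncard := by
  rw [deg_mark C hv, deg_sub C _ hv, card_x hP hvU,
    ncard_split (fun q => C.sg.a q = v) (fun q => C.sg.b q ∈ U),
    ncard_split (fun q => C.sg.b q = v) (fun q => C.sg.a q ∈ U)]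
  have e1 : {q | q ∈ {q | C.sg.a q ∉ U ∧ C.sg.b q ∉ U} ∧ C.sg.a q = v} =
      {q | C.sg.a q = v ∧ ¬ C.sg.b q ∈ U} := by
    ext q
    constructor
    · rintro ⟨⟨h1, h2⟩, h3⟩
      exact ⟨h3, h2⟩
    · rintro ⟨h1, h2⟩
      exact ⟨⟨h1 ▸ hvU, h2⟩, h1⟩
  have e2 : {q | q ∈ {q | C.sg.a q ∉ U ∧ C.sg.b q ∉ U} ∧ C.sg.b q = v} =
      {q | C.sg.b q = v ∧ ¬ C.sg.a q ∈ U} := by
    ext q
    constructor
    · rintro ⟨⟨h1, h2⟩, h3⟩
      exact ⟨h3, h1⟩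
    · rintro ⟨h1, h2⟩
      exact ⟨⟨h2, h1 ▸ hvU⟩, h1⟩
  rw [e1, e2]
  omega

/-- the degree of a vertex that is not a mark -/
theorem dg_not_mark (C : Cut G M Q) (hM : ∀ v, deg G v ≠ 2 → v ∈ M) (A : Set Q)
    {v : V} (hv : v ∉ M) (h0 : deg (sub C.sg A) v ≠ 0) :
    deg (sub C.sg A) v = 2 ∧ deg G v = 2 := by
  have h2 : deg G v = 2 := by
    by_contra h
    exact hv (hM v h)
  refine ⟨?_, h2⟩
  obtain ⟨w, -, -, hw, -, -⟩ := two_nbrs h2
  obtain ⟨q, hq⟩ := C.sg.cover s(v, w) hw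
  have hvs := (C.sg.T q).fst_mem_support_of_mem_edges hq
  have ha : v ≠ C.sg.a q := fun h => hv (h ▸ C.ma q)
  have hb : v ≠ C.sg.b q := fun h => hv (h ▸ C.mb q)
  obtain ⟨h3, h4⟩ := deg_inner C.sg A hvs ha hb
  by_cases hqA : q ∈ A
  · exact h3 hqA
  · exact absurd (h4 hqA) h0

/-- the degree of a hub -/
theorem hub_sum (C : Cut G M Q) (U : Set V) {P : Type} {seg : P → Q} {x hub : P → V}
    (hP : PinSeg C U seg x hub) {Q' : Type} {seg' : Q' → Q} {ha hb : Q' → V}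
    (hinj : Function.Injective seg') (hae : ∀ q, ha q = C.sg.a (seg' q))
    (hbe : ∀ q, hb q = C.sg.b (seg' q)) (hQU : ∀ q, ha q ∈ U ∧ hb q ∈ U)
    (hsurj : ∀ q, C.sg.a q ∈ U → C.sg.b q ∈ U → ∃ q', seg' q' = q) {a : V} (haM : a ∈ M)
    (haU : a ∈ U) :
    deg G a = {p | hub p = a}.ncard + {q | ha q = a}.ncard + {q | hb q = a}.ncard := by
  have k1 : {q | ha q = a}.ncard = {q | C.sg.a q = a ∧ C.sg.b q ∈ U}.ncard := by
    rw [← Set.ncard_image_of_injective _ hinj]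
    congr 1
    ext q
    constructor
    · rintro ⟨q', h1, rfl⟩
      have h1' : ha q' = a := h1
      exact ⟨(hae q').symm.trans h1', hbe q' ▸ (hQU q').2⟩
    · rintro ⟨h1, h2⟩
      obtain ⟨q', rfl⟩ := hsurj q (h1 ▸ haU) h2
      exact ⟨q', (hae q').trans h1, rfl⟩
  have k2 : {q | hb q = a}.ncard = {q | C.sg.b q = a ∧ C.sg.a q ∈ U}.ncard := by
    rw [← Set.ncard_image_of_injective _ hinj]
    congr 1
    ext q
    constructor
    · rintro ⟨q', h1, rfl⟩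
      have h1' : hb q' = a := h1
      exact ⟨(hbe q').symm.trans h1', hae q' ▸ (hQU q').1⟩
    · rintro ⟨h1, h2⟩
      obtain ⟨q', rfl⟩ := hsurj q h2 (h1 ▸ haU)
      exact ⟨q', (hbe q').trans h1, rfl⟩
  rw [deg_mark C haM, card_hub hP haU, k1, k2,
    ncard_split (fun q => C.sg.a q = a) (fun q => C.sg.b q ∈ U),
    ncard_split (fun q => C.sg.b q = a) (fun q => C.sg.a q ∈ U)]
  omega

end Pool.Agent.Helper85.HH
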