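import Pool.Agent.Helper93.HH.Basic

/-!
# HH-NP, part 1: clusters with given centres
-/

open Set
open Pool.Agent.Helper83.OP
open Pool.Agent.Helper93.HH

namespace Pool.Agent.Helper85.HH

/-- Voronoi clusters with given centres `C`, at pairwise distance more than `2ρ` -/
theorem given_clus {V : Type} [Finite V] (G H : SimpleGraph V) (ρ : ℕ) (C : Set V)
    (hC : ∀ a ∈ C, ∀ b ∈ C, Nr G (2 * ρ) a b → a = b)
    (hGH : ∀ u v, (∃ c ∈ C, Nr G (2 * ρ) u c) → (∃ c ∈ C, Nr G (2 * ρ) v c) →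
      (H.Adj u v ↔ G.Adj u v)) :
    ∃ K : Clus H {v | ∃ c ∈ C, Nr G (2 * ρ) v c} ρ, K.Ctr = C ∧
      ∀ v, ∀ c ∈ C, Nr G ρ v c → K.ctr v = c := by
  classical
  have hGH' : ∀ u ∈ {v | ∃ c ∈ C, Nr G (2 * ρ) v c}, ∀ v ∈ {v | ∃ c ∈ C, Nr G (2 * ρ) v c},
      (H.Adj u v ↔ G.Adj u v) := fun u hu v hv => hGH u v hu hv
  have hmemB : ∀ v k, (∃ c ∈ C, Nr G k v c) → k ≤ 2 * ρ →
      v ∈ {v | ∃ c ∈ C, Nr G (2 * ρ) v c} := by
    rintro v k ⟨c, hc, h⟩ hk
    exact ⟨c, hc, h.mono hk⟩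
  have hBspec : ∀ v ∈ {v | ∃ c ∈ C, Nr G (2 * ρ) v c}, ∃ c ∈ C, Nr G (2 * ρ) v c :=
    fun v hv => hv
  generalize {v | ∃ c ∈ C, Nr G (2 * ρ) v c} = B at *
  let d : V → ℕ := fun v => sInf {k | ∃ c ∈ C, Nr G k v c}
  have hd : ∀ v ∈ B, ∃ c ∈ C, Nr G (d v) v c := fun v hv =>
    Nat.sInf_mem (s := {k | ∃ c ∈ C, Nr G k v c}) ⟨2 * ρ, hBspec v hv⟩
  have hmin : ∀ v k, (∃ c ∈ C, Nr G k v c) → d v ≤ k := fun v k h => Nat.sInf_le h
  have hle : ∀ v ∈ B, d v ≤ 2 * ρ := fun v hv => hmin v _ (hBspec v hv)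
  have hlip : ∀ v ∈ B, ∀ w, G.Adj v w → d w ≤ d v + 1 := by
    intro v hv w hvw
    obtain ⟨c, hc, h⟩ := hd v hv
    refine hmin w _ ⟨c, hc, ?_⟩
    exact ((Nr.of_adj hvw.symm).trans h).mono (by omega)
  have hpar : ∀ v, ∃ u, v ∈ B → d v ≠ 0 → G.Adj v u ∧ d u + 1 = d v ∧ u ∈ B := by
    intro v
    by_cases hvB : v ∈ B
    · by_cases hv : d v = 0
      · exact ⟨v, fun _ h => absurd hv h⟩
      · obtain ⟨c, hc, p, hp⟩ := hd v hvB
        cases p with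
        | nil =>
          have : d v ≤ 0 := hmin v 0 ⟨v, hc, SimpleGraph.Walk.nil, le_rfl⟩
          exact absurd (Nat.le_zero.mp this) hv
        | @cons _ u _ h q =>
          refine ⟨u, fun _ _ => ⟨h, ?_⟩⟩
          rw [SimpleGraph.Walk.length_cons] at hp
          have h0 : ∃ c ∈ C, Nr G (d v - 1) u c := ⟨c, hc, q, by omega⟩
          have h1 : d u ≤ d v - 1 := hmin u _ h0
          have huB : u ∈ B := hmemB u _ h0 (by have := hle v hvB; omega)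
          have h2 := hlip u huB v h.symm
          exact ⟨by omega, huB⟩
    · exact ⟨v, fun h => absurd h hvB⟩
  choose par hpar using hpar
  let ctr : V → V := fun v => par^[d v] v
  have hctr : ∀ v ∈ B, d v ≠ 0 → ctr (par v) = ctr v := by
    intro v hvB hv
    have h1 := (hpar v hvB hv).2.1
    change par^[d (par v)] (par v) = par^[d v] v
    rw [← h1, Function.iterate_succ_apply]
  have h0 : ∀ v, d v = 0 → ctr v = v := by
    intro v hv
    change par^[d v] v = v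
    rw [hv]
    rfl
  have hCd : ∀ c ∈ C, d c = 0 := by
    intro c hc
    exact Nat.le_zero.1 (hmin c 0 ⟨c, hc, Nr.refl _ _ _⟩)
  have hCB : ∀ c ∈ C, c ∈ B := fun c hc => hmemB c 0 ⟨c, hc, Nr.refl _ _ _⟩ (Nat.zero_le _)
  have hbase : ∀ k v, v ∈ B → d v = k → ctr v ∈ C ∧ Nr G k v (ctr v) := by
    intro k
    induction k with
    | zero =>
      intro v hvB hv
      rw [h0 v hv]
      obtain ⟨c, hc, h⟩ := hd v hvB
      rw [hv] at h
      have h1 := h.eq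
      exact ⟨h1 ▸ hc, Nr.refl _ _ _⟩
    | succ k ih =>
      intro v hvB hv
      have hne : d v ≠ 0 := by omega
      obtain ⟨a1, a2, a3⟩ := hpar v hvB hne
      obtain ⟨h1, h3⟩ := ih (par v) a3 (by omega)
      rw [hctr v hvB hne] at h1 h3
      exact ⟨h1, ((Nr.of_adj a1).trans h3).mono (by omega)⟩
  refine ⟨⟨ctr, par, d, ?_, ?_, ?_, ?_, ?_, ?_, ?_, ?_, ?_, ?_, ?_⟩, ?_, ?_⟩
  · exact fun v hv => hCB _ (hbase _ v hv rfl).1
  · exact fun v hv => h0 _ (hCd _ (hbase _ v hv rfl).1)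
  · exact fun v hv => hCd _ (hbase _ v hv rfl).1
  · exact fun v _ hv => h0 v hv
  · exact hle
  · exact fun v hv h => (hpar v hv h).2.2
  · exact fun v hv h => (hGH' v hv _ (hpar v hv h).2.2).2 (hpar v hv h).1
  · exact fun v hv h => (hpar v hv h).2.1
  · exact hctr
  · exact fun v hv w hw h => hlip v hv w ((hGH' v hv w hw).1 h)
  · intro v hv w hw hvw hdv
    have hvw' := (hGH' v hv w hw).1 hvw
    obtain ⟨c1, n1⟩ := hbase _ v hv rfl
    obtain ⟨c2, n2⟩ := hbase _ w hw rfl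
    have h1 := hlip v hv w hvw'
    exact hC _ c2 _ c1 (((n2.symm.trans (Nr.of_adj hvw'.symm)).trans n1).mono (by omega))
  · ext s
    constructor
    · rintro ⟨hs, hs'⟩
      have : ctr s = s := hs'
      rw [← this]
      exact (hbase _ s hs rfl).1
    · intro hs
      exact ⟨hCB s hs, h0 s (hCd s hs)⟩
  · intro v c hc hv
    have hvB : v ∈ B := hmemB v ρ ⟨c, hc, hv⟩ (by omega)
    obtain ⟨c1, n1⟩ := hbase _ v hvB rfl
    have h1 : d v ≤ ρ := hmin v ρ ⟨c, hc, hv⟩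
    exact hC _ c1 _ hc ((n1.symm.trans hv).mono (by omega))

end Pool.Agent.Helper85.HH
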