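import Pool.Agent.Helper93.HH.Basic

/-!
# HH-NP, part 2: the graph of `N` and the pins, and its short cycles
-/

open Set
open Pool.Agent.Helper83.OP
open Pool.Agent.Helper93.HH

namespace Pool.Agent.Helper85.HH

theorem cyc_open {V : Type} {G : SimpleGraph V} {u : V} (C : G.Walk u u) (hC : C.IsCycle) {a : V}
    (ha : a ∈ C.support) :
    ∃ (z1 z2 : V) (q : G.Walk z1 z2), z1 ≠ z2 ∧ G.Adj a z1 ∧ G.Adj a z2 ∧ a ∉ q.support ∧
      (∀ v ∈ q.support, v ∈ C.support) ∧ q.length ≤ C.length := by
  classical
  have hC' := hC.rotate ha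
  have hs : ∀ v, v ∈ (C.rotate a ha).support → v ∈ C.support := by
    intro v hv
    rw [SimpleGraph.Walk.rotate, SimpleGraph.Walk.mem_support_append_iff] at hv
    rcases hv with hv | hv
    · exact C.support_dropUntil_subset_support ha hv
    · exact C.support_takeUntil_subset_support ha hv
  have hl : (C.rotate a ha).length = C.length := by
    have h1 := congrArg SimpleGraph.Walk.length (C.take_spec ha)
    rw [SimpleGraph.Walk.length_append] at h1
    rw [SimpleGraph.Walk.rotate, SimpleGraph.Walk.length_append]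
    omega
  generalize C.rotate a ha = C' at *
  have hn := hC'.not_nil
  have hlen := hC'.three_le_length
  have htl := C'.length_tail
  have hnt : ¬ C'.tail.Nil := by
    rw [← SimpleGraph.Walk.length_eq_zero_iff]
    omega
  have hp := hC'.isPath_tail
  have hsup := SimpleGraph.Walk.support_dropLast_concat hnt
  have hsup2 := SimpleGraph.Walk.cons_support_tail hn
  refine ⟨C'.snd, C'.tail.penultimate, C'.tail.dropLast, ?_, C'.adj_snd hn,
    (C'.tail.adj_penultimate hnt).symm, ?_, ?_, ?_⟩
  · have h1 := hC'.snd_ne_penultimate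
    have h2 : C'.tail.penultimate = C'.penultimate := by
      show C'.tail.getVert (C'.tail.length - 1) = C'.getVert (C'.length - 1)
      rw [SimpleGraph.Walk.getVert_tail, htl]
      congr 1
      omega
    rw [h2]
    exact h1
  · intro hmem
    have h1 := hp.support_nodup
    rw [← hsup, List.nodup_append] at h1
    exact h1.2.2 _ hmem _ (List.mem_singleton_self _) rfl
  · intro v hv
    apply hs
    rw [← hsup2, ← hsup]
    exact List.mem_cons_of_mem _ (List.mem_append_left _ hv)
  · rw [SimpleGraph.Walk.length_dropLast, htl]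
    omega

theorem gv_inj {V : Type} {G : SimpleGraph V} {u v : V} {w : G.Walk u v} (hw : w.IsPath) {i j : ℕ}
    (hi : i ≤ w.length) (hj : j ≤ w.length) (h : w.getVert i = w.getVert j) : i = j :=
  hw.getVert_injOn hi hj h

section

variable {V P Q : Type} (D : HD V P Q) (e0 : Sym2 V)

/-- the graph `N` together with the pins which do not contain `e0` -/
def G1 : SimpleGraph V where
  Adj u v := D.N.Adj u v ∨ ∃ p, e0 ∉ (D.w p).edges ∧ s(u, v) ∈ (D.w p).edges
  symm := ⟨by
    rintro u v (h | ⟨p, h, h'⟩)
    · exact Or.inl h.symm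
    · exact Or.inr ⟨p, h, by rwa [Sym2.eq_swap]⟩⟩
  loopless := ⟨by
    rintro u (h | ⟨p, h, h'⟩)
    · exact D.N.irrefl h
    · exact D.G.irrefl ((D.w p).adj_of_mem_edges h')⟩

/-- the last vertex of a pin before the hub -/
noncomputable def en (p : P) : V := (D.w p).penultimate

variable {D} {e0}

theorem not_nil (hD : D.Ok) (p : P) : ¬ (D.w p).Nil := by
  rw [← SimpleGraph.Walk.length_eq_zero_iff]
  have := hD.w_ge p
  have := hD.r_pos
  omega

theorem x_ne_hub (hD : D.Ok) (p : P) : D.x p ≠ D.hub p := by
  intro h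
  exact hD.x_U p (h ▸ hD.hub_U p)

theorem en_adj (hD : D.Ok) (p : P) : D.G.Adj (en D p) (D.hub p) :=
  (D.w p).adj_penultimate (not_nil hD p)

theorem en_edge (hD : D.Ok) (p : P) : s(en D p, D.hub p) ∈ (D.w p).edges :=
  (D.w p).mk_penultimate_end_mem_edges (not_nil hD p)

theorem en_mem (hD : D.Ok) (p : P) : en D p ∈ (D.w p).support :=
  (D.w p).fst_mem_support_of_mem_edges (en_edge hD p)

theorem en_ne_hub (hD : D.Ok) (p : P) : en D p ≠ D.hub p := (en_adj hD p).ne

theorem en_ne_x (hD : D.Ok) (p : P) : en D p ≠ D.x p := by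
  intro h
  have h1 := hD.w_ge p
  have h2 := hD.r_pos
  have h3 := gv_inj (hD.w_path p) (i := (D.w p).length - 1) (j := 0) (by omega) (by omega)
    (by rw [SimpleGraph.Walk.getVert_zero]; exact h)
  omega

theorem en_U (hD : D.Ok) (p : P) : en D p ∉ D.U := hD.w_U p _ (en_mem hD p) (en_ne_hub hD p)

/-- an inner vertex of the pin `p` -/
def Inn (D : HD V P Q) (p : P) (z : V) : Prop := z ∈ (D.w p).support ∧ z ≠ D.x p ∧ z ≠ D.hub p

theorem en_inn (hD : D.Ok) (p : P) : Inn D p (en D p) := ⟨en_mem hD p, en_ne_x hD p, en_ne_hub hD p⟩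

theorem inn_uniq (hD : D.Ok) {p p' : P} {z : V} (h : Inn D p z) (h' : z ∈ (D.w p').support) :
    p = p' := hD.w_disj p p' z h.1 h' h.2.1 h.2.2

theorem en_inj (hD : D.Ok) {p p' : P} (h : en D p = en D p') : p = p' :=
  inn_uniq hD (en_inn hD p) (h ▸ en_mem hD p')

theorem inn_VN (hD : D.Ok) {p : P} {z : V} (h : Inn D p z) : z ∉ D.VN := hD.w_N p z h.1 h.2.1

/-- a vertex of a pin -/
theorem mem_cases {p : P} {z : V} (h : z ∈ (D.w p).support) :
    z = D.hub p ∨ z = D.x p ∨ Inn D p z := by
  by_cases h1 : z = D.hub p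
  · exact Or.inl h1
  · by_cases h2 : z = D.x p
    · exact Or.inr (Or.inl h2)
    · exact Or.inr (Or.inr ⟨h, h2, h1⟩)

theorem eq_hub (hD : D.Ok) {p : P} {z : V} (h : z ∈ (D.w p).support) (hz : z ∈ D.U) :
    z = D.hub p := by
  by_contra hne
  exact hD.w_U p z h hne hz

/-- an edge in two pins -/
theorem edge_uniq (hD : D.Ok) {p p' : P} {f : Sym2 V} (h : f ∈ (D.w p).edges)
    (h' : f ∈ (D.w p').edges) : p = p' := by
  induction f with
  | h a b =>
    have a1 := (D.w p).fst_mem_support_of_mem_edges h
    have b1 := (D.w p).snd_mem_support_of_mem_edges h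
    have a2 := (D.w p').fst_mem_support_of_mem_edges h'
    have b2 := (D.w p').snd_mem_support_of_mem_edges h'
    have hab : a ≠ b := ((D.w p).adj_of_mem_edges h).ne
    rcases mem_cases a1 with ha | ha | ha
    · rcases mem_cases b1 with hb | hb | hb
      · exact absurd (ha.trans hb.symm) hab
      · exfalso
        rw [ha] at h
        have h3 := (hD.w_path p).eq_penultimate_of_mem_edges (w := b) h
        exact en_ne_x hD p (h3.symm.trans hb)
      · exact inn_uniq hD hb b2
    · rcases mem_cases b1 with hb | hb | hb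
      · exfalso
        rw [hb, Sym2.eq_swap] at h
        have h3 := (hD.w_path p).eq_penultimate_of_mem_edges (w := a) h
        exact en_ne_x hD p (h3.symm.trans ha)
      · exact absurd (ha.trans hb.symm) hab
      · exact inn_uniq hD hb b2
    · exact inn_uniq hD ha a2

theorem G1_U (hD : D.Ok) {a z : V} (ha : a ∈ D.U) (h : (G1 D e0).Adj a z) :
    ∃ p, e0 ∉ (D.w p).edges ∧ a = D.hub p ∧ z = en D p := by
  rcases h with h | ⟨p, hp, h⟩
  · exact absurd ha (hD.N_U a z h)
  · have h1 := eq_hub hD ((D.w p).fst_mem_support_of_mem_edges h) ha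
    rw [h1] at h
    exact ⟨p, hp, h1, (hD.w_path p).eq_penultimate_of_mem_edges h⟩

theorem G1_en (hD : D.Ok) {p : P} (hp : e0 ∉ (D.w p).edges) : (G1 D e0).Adj (en D p) (D.hub p) :=
  Or.inr ⟨p, hp, en_edge hD p⟩

/-- the neighbours of an inner vertex -/
theorem G1_inn [Finite V] (hD : D.Ok) {p : P} {i : ℕ} (h0 : 0 < i) (hi : i < (D.w p).length) {y : V}
    (h : (G1 D e0).Adj ((D.w p).getVert i) y) :
    y = (D.w p).getVert (i - 1) ∨ y = (D.w p).getVert (i + 1) := by
  have hinn : Inn D p ((D.w p).getVert i) := by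
    refine ⟨(D.w p).getVert_mem_support i, ?_, ?_⟩
    · intro h1
      have := gv_inj (hD.w_path p) (i := i) (j := 0) (by omega) (by omega)
        (by rw [SimpleGraph.Walk.getVert_zero]; exact h1)
      omega
    · intro h1
      have := gv_inj (hD.w_path p) (i := i) (j := (D.w p).length) (by omega) (by omega)
        (by rw [SimpleGraph.Walk.getVert_length]; exact h1)
      omega
  rcases h with h | ⟨p', hp', h⟩
  · exact absurd (HD.VN_of_adj h) (inn_VN hD hinn)
  · have hpp : p = p' := inn_uniq hD hinn ((D.w p').fst_mem_support_of_mem_edges h)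
    subst hpp
    obtain ⟨j, hj, h1⟩ := ((D.w p).mk_mem_edges_iff_exists).1 h
    rw [Sym2.eq_iff] at h1
    rcases h1 with ⟨h1, h2⟩ | ⟨h1, h2⟩
    · have h3 := gv_inj (hD.w_path p) (by omega) (by omega) h1
      right
      rw [← h2, h3]
    · have h3 := gv_inj (hD.w_path p) (by omega) (by omega) h2
      left
      rw [← h1, ← h3]
      rfl

open Classical in
/-- the projection to `N` -/
noncomputable def pr (D : HD V P Q) (z : V) : V := if h : ∃ p, Inn D p z then D.x h.choose else z

theorem pr_inn (hD : D.Ok) {p : P} {z : V} (h : Inn D p z) : pr D z = D.x p := by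
  have hex : ∃ p, Inn D p z := ⟨p, h⟩
  unfold pr
  rw [dif_pos hex, inn_uniq hD hex.choose_spec h.1]

theorem pr_VN (hD : D.Ok) {z : V} (h : z ∈ D.VN) : pr D z = z := by
  unfold pr
  rw [dif_neg]
  rintro ⟨p, hp⟩
  exact inn_VN hD hp h

theorem pr_mem (hD : D.Ok) {p : P} {z : V} (h : z ∈ (D.w p).support) (hz : z ∉ D.U) :
    pr D z = D.x p := by
  rcases mem_cases h with h1 | h1 | h1
  · exact absurd (h1 ▸ hD.hub_U p) hz
  · rw [h1]
    exact pr_VN hD (HD.x_VN p)
  · exact pr_inn hD h1

theorem pr_step [Finite V] (hD : D.Ok) {u v : V} (h : (G1 D e0).Adj u v) (hu : u ∉ D.U)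
    (hv : v ∉ D.U) : Nr D.N 1 (pr D u) (pr D v) := by
  rcases h with h | ⟨p, -, h⟩
  · rw [pr_VN hD (HD.VN_of_adj h), pr_VN hD (HD.VN_of_adj' h)]
    exact Nr.of_adj h
  · rw [pr_mem hD ((D.w p).fst_mem_support_of_mem_edges h) hu,
      pr_mem hD ((D.w p).snd_mem_support_of_mem_edges h) hv]
    exact Nr.refl _ _ _

theorem pr_nr [Finite V] (hD : D.Ok) {u v : V} (q : (G1 D e0).Walk u v)
    (hq : ∀ z ∈ q.support, z ∉ D.U) : Nr D.N q.length (pr D u) (pr D v) := by
  induction q with
  | nil => exact Nr.refl _ _ _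
  | cons h q ih =>
    have h1 := ih (fun z hz => hq z (by
      rw [SimpleGraph.Walk.support_cons]; exact List.mem_cons_of_mem _ hz))
    have h2 := pr_step hD h (hq _ (SimpleGraph.Walk.start_mem_support _)) (hq _ (by
      rw [SimpleGraph.Walk.support_cons]; exact List.mem_cons_of_mem _ q.start_mem_support))
    rw [SimpleGraph.Walk.length_cons, Nat.add_comm]
    exact h2.trans h1

/-- short cycles contain two hubs -/
theorem cyc_two [Finite V] (hD : D.Ok) {M : ℕ}
    (h0 : ∀ v (Z : D.N.Walk v v), Z.IsCycle → M < Z.length)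
    (h2 : ∀ p p', p ≠ p' → D.hub p = D.hub p' → ∀ t, Nr D.N t (D.x p) (D.x p') → M < t)
    {u : V} (C : (G1 D e0).Walk u u) (hC : C.IsCycle) (hl : C.length ≤ M) (g : V) :
    ∃ v ∈ C.support, v ≠ g ∧ v ∈ D.U := by
  by_contra hcon
  push Not at hcon
  by_cases hg : ∃ a ∈ C.support, a ∈ D.U
  · obtain ⟨a, ha, haU⟩ := hg
    have hag : a = g := by
      by_contra h
      exact hcon a ha h haU
    obtain ⟨z1, z2, q, hne, h1, h2', hq, hqs, hql⟩ := cyc_open C hC ha
    obtain ⟨p, hp, e1, e2⟩ := G1_U hD haU h1
    obtain ⟨p', hp', e1', e2'⟩ := G1_U hD haU h2'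
    have hpp : p ≠ p' := by
      rintro rfl
      exact hne (e2.trans e2'.symm)
    have h3 := pr_nr hD q (fun z hz => hcon z (hqs z hz) (by
      rintro rfl
      exact hq (hag ▸ hz)))
    have e3 : pr D z1 = D.x p := by rw [e2, pr_inn hD (en_inn hD p)]
    have e3' : pr D z2 = D.x p' := by rw [e2', pr_inn hD (en_inn hD p')]
    rw [e3, e3'] at h3
    have h4 := h2 p p' hpp (e1.symm.trans e1') _ h3
    have h5 : q.length ≤ C.length := hql
    omega
  · push Not at hg
    have hinn : ∀ p, ∀ k i, k + i = (D.w p).length → 0 < i → 0 < k →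
        (D.w p).getVert i ∉ C.support := by
      intro p k
      induction k with
      | zero =>
        intro i _ _ h
        exact absurd h (lt_irrefl _)
      | succ k ih =>
        intro i hk hi _ hmem
        obtain ⟨z1, z2, q, hne, h1, h2, hq, hqs, _⟩ := cyc_open C hC hmem
        have m1 := G1_inn hD hi (by omega) h1
        have m2 := G1_inn hD hi (by omega) h2
        have hm : (D.w p).getVert (i + 1) ∈ C.support := by
          rcases m1 with m1 | m1
          · rcases m2 with m2 | m2
            · exact absurd (m1.trans m2.symm) hne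
            · rw [← m2]
              exact hqs _ q.end_mem_support
          · rw [← m1]
            exact hqs _ q.start_mem_support
        rcases Nat.eq_zero_or_pos k with hk0 | hk0
        · have h3 : (D.w p).getVert (i + 1) = D.hub p := by
            rw [show i + 1 = (D.w p).length by omega]
            exact SimpleGraph.Walk.getVert_length _
          rw [h3] at hm
          exact hg _ hm (hD.hub_U p)
        · exact ih (i + 1) (by omega) (by omega) hk0 hm
    have hinn' : ∀ p z, Inn D p z → z ∉ C.support := by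
      rintro p z ⟨h1, h2, h3⟩
      obtain ⟨i, hi, hil⟩ := SimpleGraph.Walk.mem_support_iff_exists_getVert.1 h1
      have hi0 : i ≠ 0 := by
        rintro rfl
        rw [SimpleGraph.Walk.getVert_zero] at hi
        exact h2 hi.symm
      have hi1 : i ≠ (D.w p).length := by
        rintro rfl
        rw [SimpleGraph.Walk.getVert_length] at hi
        exact h3 hi.symm
      rw [← hi]
      exact hinn p ((D.w p).length - i) i (by omega) (by omega) (by omega)
    have hedge : ∀ f ∈ C.edges, f ∈ D.N.edgeSet := by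
      intro f hf
      induction f with
      | h a b =>
        have ha := C.fst_mem_support_of_mem_edges hf
        have hb := C.snd_mem_support_of_mem_edges hf
        rcases C.adj_of_mem_edges hf with h | ⟨p, hp, h⟩
        · exact h
        · exfalso
          have hab : a ≠ b := ((D.w p).adj_of_mem_edges h).ne
          have key : ∀ z ∈ (D.w p).support, z ∈ C.support → z = D.x p := by
            intro z hz hzC
            rcases mem_cases hz with h1 | h1 | h1
            · exact absurd (h1 ▸ hD.hub_U p) (hg z hzC)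
            · exact h1
            · exact absurd hzC (hinn' p z h1)
          exact hab ((key a ((D.w p).fst_mem_support_of_mem_edges h) ha).trans
            (key b ((D.w p).snd_mem_support_of_mem_edges h) hb).symm)
    have h3 := h0 _ _ (hC.transfer hedge)
    rw [SimpleGraph.Walk.length_transfer] at h3
    omega

end

end Pool.Agent.Helper85.HH
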