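import Pool.Agent.Helper85.HH.GClus
import Pool.Agent.Helper85.HH.PinG
import Pool.Agent.Helper83.OP.TriBound
import Pool.Agent.Helper83.OP.CH
import Pool.Agent.Helper83.OP.EdgeBound

/-!
# HH-NP: near pins
-/

open Set
open Pool.Agent.Helper83.OP
open Pool.Agent.Helper93.HH

namespace Pool.Agent.Helper85.HH

theorem planarLike_mono {V : Type} {H H' : SimpleGraph V} {X : Sym2 V → Sym2 V → Prop}
    (h : PlanarLike H X) (hle : H' ≤ H) : PlanarLike H' X := by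
  intro Γ R hR
  refine h Γ (fun s t hst => (R s t hst).mapLe hle) ?_
  intro s t s' t' hst hst' n1 n2 n3 n4
  obtain ⟨a, b⟩ := hR s t s' t' hst hst' n1 n2 n3 n4
  refine ⟨?_, ?_⟩
  · intro v hv hv'
    rw [SimpleGraph.Walk.support_mapLe_eq_support] at hv hv'
    exact a v hv hv'
  · intro f hf f' hf'
    rw [SimpleGraph.Walk.edges_mapLe_eq_edges] at hf hf'
    exact b f hf f' hf'

theorem net {V : Type} [Finite V] (G : SimpleGraph V) (R : ℕ) (T : Set V) : ∃ C ⊆ T,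
    (∀ a ∈ C, ∀ b ∈ C, Nr G R a b → a = b) ∧ ∀ v ∈ T, ∃ c ∈ C, Nr G R v c := by
  have hfin : {C : Set V | C ⊆ T ∧ ∀ a ∈ C, ∀ b ∈ C, Nr G R a b → a = b}.Finite := Set.toFinite _
  obtain ⟨C, hC⟩ := hfin.exists_maximal ⟨∅, by simp⟩
  refine ⟨C, hC.1.1, hC.1.2, fun v hvT => ?_⟩
  by_contra hno
  push Not at hno
  have hins : insert v C ∈ {C : Set V | C ⊆ T ∧ ∀ a ∈ C, ∀ b ∈ C, Nr G R a b → a = b} := by
    refine ⟨Set.insert_subset hvT hC.1.1, ?_⟩
    rintro a (rfl | ha) b (rfl | hb) hab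
    · rfl
    · exact absurd hab (hno b hb)
    · exact absurd hab.symm (hno a ha)
    · exact hC.1.2 a ha b hb hab
  have hvC : v ∈ C := hC.2 hins (Set.subset_insert _ _) (Set.mem_insert _ _)
  exact hno v hvC (Nr.refl _ _ _)

section

variable {V P Q : Type} {D : HD V P Q} {H : SimpleGraph V} {e0 : Sym2 V}
  {X : Sym2 V → Sym2 V → Prop}

/-- the part of `G1` outside the hubs -/
def G0 (D : HD V P Q) (e0 : Sym2 V) : SimpleGraph V where
  Adj u v := (G1 D e0).Adj u v ∧ u ∉ D.U ∧ v ∉ D.U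
  symm := ⟨fun _ _ h => ⟨h.1.symm, h.2.2, h.2.1⟩⟩
  loopless := ⟨fun _ h => (G1 D e0).irrefl h.1⟩

/-- the part of `G1` in `B` and the hubs -/
def GB (D : HD V P Q) (e0 : Sym2 V) (B : Set V) : SimpleGraph V where
  Adj u v := (G1 D e0).Adj u v ∧ (u ∈ B ∨ u ∈ D.U) ∧ (v ∈ B ∨ v ∈ D.U)
  symm := ⟨fun _ _ h => ⟨h.1.symm, h.2.2, h.2.1⟩⟩
  loopless := ⟨fun _ h => (G1 D e0).irrefl h.1⟩

theorem G1_le [Finite V] (hX : D.Dr H e0 X) (hD : D.Ok) : G1 D e0 ≤ H := by
  intro u v h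
  rw [hX.eq, SimpleGraph.deleteEdges_adj]
  rcases h with h | ⟨p, hp, h⟩
  · refine ⟨hD.N_le h, ?_⟩
    rintro (h1 : s(u, v) = e0)
    exact hX.e0N (h1 ▸ h)
  · refine ⟨(D.w p).adj_of_mem_edges h, ?_⟩
    rintro (h1 : s(u, v) = e0)
    exact hp (h1 ▸ h)

theorem N_le_G0 (hD : D.Ok) : D.N ≤ G0 D e0 := by
  intro u v h
  exact ⟨Or.inl h, hD.N_U u v h, hD.N_U v u h.symm⟩

theorem nr_mono {G G' : SimpleGraph V} (h : G ≤ G') {t : ℕ} {u v : V} (hn : Nr G t u v) :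
    Nr G' t u v := by
  obtain ⟨p, hp⟩ := hn
  exact ⟨p.mapLe h, by rwa [SimpleGraph.Walk.length_map]⟩

/-- from the attach vertex to the last vertex -/
theorem x_en (hD : D.Ok) {p : P} (hp : e0 ∉ (D.w p).edges) :
    Nr (G0 D e0) D.L (D.x p) (en D p) := by
  have hn := not_nil hD p
  have hsup := SimpleGraph.Walk.support_dropLast_concat hn
  have hnd := (hD.w_path p).support_nodup
  rw [← hsup, List.nodup_append] at hnd
  have hU : ∀ z ∈ (D.w p).dropLast.support, z ∉ D.U := by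
    intro z hz
    refine hD.w_U p z ?_ ?_
    · rw [← hsup]
      exact List.mem_append_left _ hz
    · exact hnd.2.2 z hz _ (List.mem_singleton_self _)
  have hE : ∀ f ∈ (D.w p).dropLast.edges, f ∈ (G0 D e0).edgeSet := by
    intro f hf
    induction f with
    | h a b =>
      refine ⟨Or.inr ⟨p, hp, ?_⟩, hU a ((D.w p).dropLast.fst_mem_support_of_mem_edges hf),
        hU b ((D.w p).dropLast.snd_mem_support_of_mem_edges hf)⟩
      have h1 := (D.w p).concat_dropLast ((D.w p).adj_penultimate hn)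
      rw [← h1, SimpleGraph.Walk.edges_concat, List.concat_eq_append]
      exact List.mem_append_left _ hf
  show Nr (G0 D e0) D.L (D.x p) (D.w p).penultimate
  refine ⟨(D.w p).dropLast.transfer _ hE, ?_⟩
  rw [SimpleGraph.Walk.length_transfer, SimpleGraph.Walk.length_dropLast]
  have := hD.w_le p
  omega

theorem nr_U {t : ℕ} {u v : V} (h : Nr (G0 D e0) t u v) (hv : v ∉ D.U) : u ∉ D.U := by
  obtain ⟨p, -⟩ := h
  cases p with
  | nil => exact hv
  | cons h q => exact h.2.1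

theorem one_p0 [Finite P] (hD : D.Ok) : {p | e0 ∈ (D.w p).edges}.ncard ≤ 1 := by
  rw [Set.ncard_le_one_iff_subsingleton]
  intro p hp p' hp'
  exact edge_uniq hD hp hp'

theorem np_core [Finite V] [Finite P] (hD : D.Ok) (hX : D.Dr H e0 X) (t ρ M : ℕ)
    (hρ : ρ = t + 2 * D.L) (hM : 8 * ρ + 2 ≤ M)
    (h0 : ∀ v (Z : D.N.Walk v v), Z.IsCycle → M < Z.length)
    (h2 : ∀ p p', p ≠ p' → D.hub p = D.hub p' → ∀ t, Nr D.N t (D.x p) (D.x p') → M < t)
    (T : Set P) (hT : ∀ p ∈ T, e0 ∉ (D.w p).edges)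
    (hT3 : ∀ p ∈ T, 3 ≤ {q | Nr D.N t (D.x p) (D.x q)}.ncard) :
    T.ncard ≤ 12 * (1 + 396 * (6 * 1 * (2 * ρ + 1) + 1) * D.U.ncard +
      (2 * 1 * (4 * ρ + 1) + 1) * D.U.ncard) := by
  classical
  obtain ⟨C, hCT, hC1, hC2⟩ := net (G0 D e0) (2 * ρ) (en D '' T)
  set B : Set V := {v | ∃ c ∈ C, Nr (G0 D e0) (2 * ρ) v c} with hB
  have hCU : ∀ c ∈ C, c ∉ D.U := by
    intro c hc
    obtain ⟨p, -, rfl⟩ := hCT hc
    exact en_U hD p
  have hBU : ∀ v ∈ B, v ∉ D.U := by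
    rintro v ⟨c, hc, h⟩
    exact nr_U h (hCU c hc)
  have hGH : ∀ u v, (∃ c ∈ C, Nr (G0 D e0) (2 * ρ) u c) → (∃ c ∈ C, Nr (G0 D e0) (2 * ρ) v c) →
      ((GB D e0 B).Adj u v ↔ (G0 D e0).Adj u v) := by
    intro u v hu hv
    constructor
    · intro h
      exact ⟨h.1, hBU u hu, hBU v hv⟩
    · intro h
      exact ⟨h.1, Or.inl hu, Or.inl hv⟩
  obtain ⟨K, hKC, hKn⟩ := given_clus (G0 D e0) (GB D e0 B) ρ C hC1 hGH
  have hle1 : GB D e0 B ≤ G1 D e0 := fun u v h => h.1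
  have hle : GB D e0 B ≤ H := hle1.trans (G1_le hX hD)
  have htidy : K.Tidy := by
    refine clus_tidy K ?_
    intro u Z hZ hl g
    obtain ⟨v, hv, hvg, hvU⟩ := cyc_two hD h0 h2 (Z.mapLe hle1) (hZ.mapLe hle1)
      (by rw [SimpleGraph.Walk.length_map]; omega) g
    rw [SimpleGraph.Walk.support_mapLe_eq_support] at hv
    exact ⟨v, hv, hvg, fun h => hBU v h hvU⟩
  have hPL : PlanarLike (GB D e0 B) X := planarLike_mono hX.pl hle
  have hone : ∀ f ∈ (GB D e0 B).edgeSet,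
      {f' | f' ∈ (GB D e0 B).edgeSet ∧ X f f'}.ncard ≤ 1 := by
    intro f hf
    refine le_trans (Set.ncard_le_ncard ?_ (Set.toFinite _)) (hX.one f
      (SimpleGraph.edgeSet_mono hle hf))
    rintro f' ⟨h1, h2⟩
    exact ⟨SimpleGraph.edgeSet_mono hle h1, h2⟩
  have hhub : {g | g ∉ B ∧ deg (GB D e0 B) g ≠ 0}.ncard ≤ D.U.ncard := by
    refine Set.ncard_le_ncard ?_ (Set.toFinite _)
    rintro g ⟨h1, h2⟩
    have : ((GB D e0 B).neighborSet g).Nonempty := by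
      rw [Set.nonempty_iff_ne_empty]
      intro h
      apply h2
      unfold deg
      rw [h, Set.ncard_empty]
    obtain ⟨y, hy⟩ := this
    rcases hy.2.1 with h3 | h3
    · exact absurd h3 h1
    · exact h3
  have htri := tri_bound X 1 hone hPL K htidy
  have hch := ch_bound X 1 hone hPL K htidy
  -- the pins of `T` lie in `B`
  have hTB : ∀ p ∈ T, en D p ∈ B := fun p hp => hC2 _ ⟨p, hp, rfl⟩
  have hadj : ∀ p, e0 ∉ (D.w p).edges → en D p ∈ B → (GB D e0 B).Adj (en D p) (D.hub p) :=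
    fun p hp hpB => ⟨G1_en hD hp, Or.inl hpB, Or.inr (hD.hub_U p)⟩
  have hhB : ∀ p, D.hub p ∉ B := fun p h => hBU _ h (hD.hub_U p)
  have hTle : T.ncard ≤ {e : V × V | e.1 ∈ B ∧ e.2 ∉ B ∧ (GB D e0 B).Adj e.1 e.2}.ncard := by
    refine Set.ncard_le_ncard_of_injOn (fun p => (en D p, D.hub p)) ?_ ?_ (Set.toFinite _)
    · intro p hp
      exact ⟨hTB p hp, hhB p, hadj p (hT p hp) (hTB p hp)⟩
    · intro p _ p' _ h
      exact en_inj hD (Prod.ext_iff.1 h).1
  -- the centres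
  have hCcard : C.ncard ≤ 1 + {s | s ∈ K.Ctr ∧ 3 ≤ (K.hOut s).ncard}.ncard := by
    let Bad : Set V := {c | c ∈ C ∧ ∃ p ∈ T, en D p = c ∧ ∃ p0, e0 ∈ (D.w p0).edges ∧
      Nr D.N t (D.x p) (D.x p0)}
    have hBad : Bad.ncard ≤ 1 := by
      have hsub : Bad.Subsingleton := by
        rintro c ⟨hc, p, hp, rfl, p0, hp0, hn⟩ c' ⟨hc', p', hp', rfl, p0', hp0', hn'⟩
        have h3 : p0 = p0' := edge_uniq hD hp0 hp0'
        subst h3
        refine hC1 _ hc _ hc' ?_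
        have a1 := (x_en hD (hT p hp)).symm
        have a2 := x_en hD (hT p' hp')
        have a3 := nr_mono (N_le_G0 (e0 := e0) hD) hn
        have a4 := (nr_mono (N_le_G0 (e0 := e0) hD) hn').symm
        exact (((a1.trans a3).trans a4).trans a2).mono (by omega)
      exact Set.ncard_le_one_iff_subsingleton.2 hsub
    have hsub : C ⊆ Bad ∪ {s | s ∈ K.Ctr ∧ 3 ≤ (K.hOut s).ncard} := by
      intro c hc
      by_cases hcb : c ∈ Bad
      · exact Or.inl hcb
      · right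
        refine ⟨by rw [hKC]; exact hc, ?_⟩
        obtain ⟨p, hp, rfl⟩ := hCT hc
        have hgood : ∀ q, Nr D.N t (D.x p) (D.x q) → e0 ∉ (D.w q).edges := by
          intro q hq hq0
          exact hcb ⟨hc, p, hp, rfl, q, hq0, hq⟩
        refine (hT3 p hp).trans ?_
        refine Set.ncard_le_ncard_of_injOn (fun q => (en D q, D.hub q)) ?_ ?_ (Set.toFinite _)
        · intro q hq
          have hq' : Nr D.N t (D.x p) (D.x q) := hq
          have hn : Nr (G0 D e0) ρ (en D q) (en D p) := by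
            have a1 := (x_en hD (hgood q hq')).symm
            have a2 := (nr_mono (N_le_G0 (e0 := e0) hD) hq').symm
            have a3 := x_en hD (hT p hp)
            exact ((a1.trans a2).trans a3).mono (by omega)
          have hqB : en D q ∈ B := ⟨en D p, hc, hn.mono (by omega)⟩
          exact ⟨hqB, hKn _ _ hc hn, hhB q, hadj q (hgood q hq') hqB⟩
        · intro q _ q' _ h
          exact en_inj hD (Prod.ext_iff.1 h).1
    have h3 := (Set.ncard_le_ncard hsub (Set.toFinite _)).trans (Set.ncard_union_le _ _)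
    omega
  have e1 : 396 * (6 * 1 * (2 * ρ + 1) + 1) * {g | g ∉ B ∧ deg (GB D e0 B) g ≠ 0}.ncard ≤
      396 * (6 * 1 * (2 * ρ + 1) + 1) * D.U.ncard := Nat.mul_le_mul_left _ hhub
  have e2 : (2 * 1 * (4 * ρ + 1) + 1) * {g | g ∉ B ∧ deg (GB D e0 B) g ≠ 0}.ncard ≤
      (2 * 1 * (4 * ρ + 1) + 1) * D.U.ncard := Nat.mul_le_mul_left _ hhub
  rw [hKC] at hch
  refine (hTle.trans hch).trans (Nat.mul_le_mul_left _ ?_)
  have e3 := hCcard.trans (Nat.add_le_add_left (htri.trans e1) 1)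
  exact Nat.add_le_add e3 e2

/-- all pins are edges of `H` -/
theorem pins_le [Finite V] [Finite P] (hD : D.Ok) (hX : D.Dr H e0 X) :
    Nat.card P ≤ 1 + 8 * Nat.card V := by
  classical
  have h1 := edge_bound X 1 hX.sym hX.one hX.pl
  have h2 : {v | deg H v ≠ 0}.ncard ≤ Nat.card V := by
    rw [← Set.ncard_univ]
    exact Set.ncard_le_ncard (Set.subset_univ _) (Set.toFinite _)
  have h3 : (Set.univ : Set P).ncard ≤ {p | e0 ∈ (D.w p).edges}.ncard +
      {p | e0 ∉ (D.w p).edges}.ncard := by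
    refine le_trans (Set.ncard_le_ncard ?_ (Set.toFinite _)) (Set.ncard_union_le _ _)
    intro p _
    by_cases h : e0 ∈ (D.w p).edges
    · exact Or.inl h
    · exact Or.inr h
  have h4 : {p | e0 ∉ (D.w p).edges}.ncard ≤ H.edgeSet.ncard := by
    refine Set.ncard_le_ncard_of_injOn (fun p => s(en D p, D.hub p)) ?_ ?_ (Set.toFinite _)
    · intro p hp
      exact G1_le hX hD (G1_en hD hp)
    · intro p _ p' _ h
      rcases Sym2.eq_iff.1 h with ⟨a, -⟩ | ⟨a, -⟩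
      · exact en_inj hD a
      · exact absurd (a ▸ hD.hub_U p') (en_U hD p)
  have h5 := one_p0 (e0 := e0) hD
  rw [Set.ncard_univ] at h3
  have h6 : 4 * (1 + 1) * {v | deg H v ≠ 0}.ncard ≤ 8 * Nat.card V := by
    calc 4 * (1 + 1) * {v | deg H v ≠ 0}.ncard ≤ 4 * (1 + 1) * Nat.card V :=
          Nat.mul_le_mul_left _ h2
      _ = 8 * Nat.card V := by ring
  omega

end

/-- near pins -/
theorem NP : ∃ A : ℕ, ∀ D0 : ℕ, ∃ K1 : ℕ, ∀ (V P Q : Type) [Finite V] [Finite P] [Finite Q]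
    (D : HD V P Q) (K : ℕ) (H : SimpleGraph V) (e0 : Sym2 V) (X : Sym2 V → Sym2 V → Prop),
    D.Ok → K1 ≤ K → D.NoPl K → D.Dr H e0 X → D.U.Nonempty →
    {p | D.sg (D.x p) ≤ D0 * D.L}.ncard ≤ A * (D0 + 1) * D.L * D.U.ncard := by
  refine ⟨150000, fun D0 => ⟨8 * D0 + 18, ?_⟩⟩
  intro V P Q _ _ _ D K H e0 X hD hK hN hX hU
  have hL : 2 ≤ D.L := hD.r_pos.trans hD.r_le
  have hh : 1 ≤ D.U.ncard := (Set.ncard_pos (Set.toFinite _)).2 hU
  have hDL : D.L ≤ (D0 + 1) * D.L := Nat.le_mul_of_pos_left _ (by omega)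
  have hDL' : (D0 + 1) * D.L = D0 * D.L + D.L := by ring
  have hDLh : (D0 + 1) * D.L ≤ (D0 + 1) * D.L * D.U.ncard := Nat.le_mul_of_pos_right _ hh
  rw [show 150000 * (D0 + 1) * D.L * D.U.ncard = 150000 * ((D0 + 1) * D.L * D.U.ncard) by ring]
  rcases le_or_gt (Nat.card V) (D0 * D.L) with hc | hc
  · have h1 := pins_le hD hX
    have h2 : {p | D.sg (D.x p) ≤ D0 * D.L}.ncard ≤ Nat.card P := by
      rw [← Set.ncard_univ]
      exact Set.ncard_le_ncard (Set.subset_univ _) (Set.toFinite _)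
    omega
  · have h1 := np_core (e0 := e0) hD hX (D0 * D.L) (D0 * D.L + 2 * D.L) (K * D.L) rfl (by
        have : (8 * D0 + 18) * D.L ≤ K * D.L := Nat.mul_le_mul_right _ hK
        have h3 : (8 * D0 + 18) * D.L = 8 * (D0 * D.L) + 18 * D.L := by ring
        omega) hN.e0 hN.e2 {p | D.sg (D.x p) ≤ D0 * D.L ∧ e0 ∉ (D.w p).edges} (fun p hp => hp.2)
        (fun p hp => by
          have h2 := D.sg_spec (lt_of_le_of_lt hp.1 hc)
          refine h2.trans (Set.ncard_le_ncard ?_ (Set.toFinite _))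
          intro q hq
          exact Nr.mono hq hp.1)
    have h2 : {p | D.sg (D.x p) ≤ D0 * D.L}.ncard ≤ {p | e0 ∈ (D.w p).edges}.ncard +
        {p | D.sg (D.x p) ≤ D0 * D.L ∧ e0 ∉ (D.w p).edges}.ncard := by
      refine le_trans (Set.ncard_le_ncard ?_ (Set.toFinite _)) (Set.ncard_union_le _ _)
      intro p hp
      by_cases h : e0 ∈ (D.w p).edges
      · exact Or.inl h
      · exact Or.inr ⟨hp, h⟩
    have h3 := one_p0 (e0 := e0) hD
    have h4 : D0 * D.L + 2 * D.L ≤ 2 * ((D0 + 1) * D.L) := by omega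
    have h5 : (D0 * D.L + 2 * D.L) * D.U.ncard ≤ 2 * ((D0 + 1) * D.L * D.U.ncard) := by
      calc (D0 * D.L + 2 * D.L) * D.U.ncard ≤ 2 * ((D0 + 1) * D.L) * D.U.ncard :=
            Nat.mul_le_mul_right _ h4
        _ = 2 * ((D0 + 1) * D.L * D.U.ncard) := by ring
    have h6 : D.U.ncard ≤ (D0 + 1) * D.L * D.U.ncard :=
      Nat.le_mul_of_pos_left _ (by omega)
    generalize D0 * D.L + 2 * D.L = ρ at *
    have h7 : 12 * (1 + 396 * (6 * 1 * (2 * ρ + 1) + 1) * D.U.ncard +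
      (2 * 1 * (4 * ρ + 1) + 1) * D.U.ncard) = 12 + 57120 * (ρ * D.U.ncard) +
        33300 * D.U.ncard := by ring
    rw [h7] at h1
    omega

end Pool.Agent.Helper85.HH
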